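import Pool.Agent.V11251.DP

set_option autoImplicit false
set_option linter.unusedVariables false
set_option linter.unusedSectionVars false

open FirstOrder Cardinal

namespace Pool.Agent.Results.MP_37207a_lc.NonBorelCubes

open Pool.Agent.V11251

/-- Every field ordering of `K` is archimedean. -/
def OnlyArchimedeanOrderings (K : Type) [Field K] : Prop :=
  ∀ (o : LinearOrder K), @IsStrictOrderedRing K _ o.toPartialOrder →
    ∀ x : K, ∃ n : ℕ, o.lt x (n : K)

/-! ### a maximal subfield without prescribed cube roots -/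

/-- the polynomial argument -/
theorem not_mem_adjoin_cube {F : Type*} {E : Type*} [Field F] [Field E] [Algebra F E] (x : E)
    (hx : Transcendental F x) : x ∉ IntermediateField.adjoin F {x ^ 3} := by
  intro h
  obtain ⟨r, s, hrs⟩ := IntermediateField.mem_adjoin_simple_iff F x |>.1 h
  have hx0 : x ≠ 0 := by
    rintro rfl
    exact hx (isAlgebraic_zero)
  have hs : s ≠ 0 := by
    rintro rfl
    rw [map_zero, div_zero] at hrs
    exact hx0 hrs
  have hs' : Polynomial.aeval (x ^ 3) s ≠ 0 := by
    intro h0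
    rw [h0, div_zero] at hrs
    exact hx0 hrs
  have h1 : x * Polynomial.aeval (x ^ 3) s = Polynomial.aeval (x ^ 3) r := by
    field_simp at hrs
    exact hrs
  have h2 : Polynomial.X * Polynomial.expand F 3 s - Polynomial.expand F 3 r = 0 := by
    by_contra hne
    apply hx
    refine ⟨_, hne, ?_⟩
    rw [map_sub, map_mul, Polynomial.aeval_X, Polynomial.expand_aeval, Polynomial.expand_aeval, h1,
      sub_self]
  have h3 := congrArg Polynomial.natDegree (sub_eq_zero.1 h2)
  rw [Polynomial.natDegree_X_mul ((Polynomial.expand_ne_zero (by norm_num)).2 hs),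
    Polynomial.natDegree_expand, Polynomial.natDegree_expand] at h3
  omega

variable {I : Type} (α : I → ℝ)

/-- the generators of the field attached to `S` -/
noncomputable def beta (S : Set I) (i : I) : ℝ := open Classical in if i ∈ S then α i else α i ^ 3

theorem alpha_not_mem (hα : AlgebraicIndependent ℚ α) (S : Set I) (i : I) (hi : i ∉ S) :
    α i ∉ IntermediateField.adjoin ℚ (Set.range (beta α S)) := by
  intro h
  set G := IntermediateField.adjoin ℚ (α '' {i}ᶜ) with hG
  have ht : Transcendental G (α i) := by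
    rw [hG, IntermediateField.transcendental_adjoin_iff]
    exact hα.transcendental_adjoin (by simp)
  apply not_mem_adjoin_cube _ ht
  have hle : IntermediateField.adjoin ℚ (Set.range (beta α S)) ≤
      (IntermediateField.adjoin G {α i ^ 3}).restrictScalars ℚ := by
    rw [IntermediateField.adjoin_le_iff]
    rintro _ ⟨j, rfl⟩
    show beta α S j ∈ IntermediateField.adjoin G {α i ^ 3}
    have hGmem : ∀ z ∈ G, z ∈ IntermediateField.adjoin G {α i ^ 3} := fun z hz =>
      (IntermediateField.adjoin G {α i ^ 3}).algebraMap_mem (⟨z, hz⟩ : G)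
    by_cases hji : j = i
    · subst hji
      unfold beta
      rw [if_neg hi]
      exact IntermediateField.mem_adjoin_simple_self G _
    · have hj : α j ∈ G := IntermediateField.subset_adjoin ℚ _ ⟨j, hji, rfl⟩
      unfold beta
      split_ifs
      · exact hGmem _ hj
      · exact hGmem _ (pow_mem hj 3)
  exact hle h

/-- the family of subfields -/
def Fam (S : Set I) : Set (Subfield ℝ) :=
  {M | (∀ i, beta α S i ∈ M) ∧ ∀ i, i ∉ S → α i ∉ M}

theorem exists_max (hα : AlgebraicIndependent ℚ α) (S : Set I) :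
    ∃ M, Maximal (· ∈ Fam α S) M := by
  refine zorn_le_nonempty₀ (Fam α S) ?_
    (IntermediateField.adjoin ℚ (Set.range (beta α S))).toSubfield ?_ |>.imp fun M hM => hM.2
  · intro c hc hchain y hy
    refine ⟨sSup c, ⟨?_, ?_⟩, fun z hz => le_sSup hz⟩
    · intro i
      exact (le_sSup hy : y ≤ sSup c) ((hc hy).1 i)
    · intro i hi hmem
      rw [Subfield.mem_sSup_of_directedOn ⟨y, hy⟩ hchain.directedOn] at hmem
      obtain ⟨M, hM, hiM⟩ := hmem
      exact (hc hM).2 i hi hiM
  · refine ⟨?_, ?_⟩
    · intro i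
      exact IntermediateField.subset_adjoin ℚ _ ⟨i, rfl⟩
    · intro i hi
      exact alpha_not_mem α hα S i hi

/-- a quadratic extension -/
theorem mem_quad (M : Subfield ℝ) (r : ℝ) (hr : r ∉ M) (hr2 : r ^ 2 ∈ M) (z : ℝ)
    (hz : z ∈ Subfield.closure (insert r (M : Set ℝ))) : ∃ x ∈ M, ∃ y ∈ M, z = x + y * r := by
  induction hz using Subfield.closure_induction with
  | mem x hx =>
    rcases hx with rfl | hx
    · exact ⟨0, M.zero_mem, 1, M.one_mem, by ring⟩
    · exact ⟨x, hx, 0, M.zero_mem, by ring⟩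
  | one => exact ⟨1, M.one_mem, 0, M.zero_mem, by ring⟩
  | add x y _ _ hx hy =>
    obtain ⟨a, ha, b, hb, rfl⟩ := hx
    obtain ⟨c, hc, d, hd, rfl⟩ := hy
    exact ⟨a + c, M.add_mem ha hc, b + d, M.add_mem hb hd, by ring⟩
  | neg x _ hx =>
    obtain ⟨a, ha, b, hb, rfl⟩ := hx
    exact ⟨-a, M.neg_mem ha, -b, M.neg_mem hb, by ring⟩
  | inv x _ hx =>
    obtain ⟨a, ha, b, hb, rfl⟩ := hx
    by_cases hb0 : b = 0
    · subst hb0
      refine ⟨a⁻¹, M.inv_mem ha, 0, M.zero_mem, by ring⟩
    · have hN : a ^ 2 - b ^ 2 * r ^ 2 ≠ 0 := by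
        intro h0
        have h1 : (a - b * r) * (a + b * r) = 0 := by linear_combination h0
        rcases mul_eq_zero.1 h1 with h2 | h2
        · apply hr
          have : r = a / b := by field_simp; linear_combination -h2
          rw [this]
          exact M.div_mem ha hb
        · apply hr
          have : r = -a / b := by field_simp; linear_combination h2
          rw [this]
          exact M.div_mem (M.neg_mem ha) hb
      have hNM : a ^ 2 - b ^ 2 * r ^ 2 ∈ M :=
        M.sub_mem (pow_mem ha 2) (M.mul_mem (pow_mem hb 2) hr2)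
      refine ⟨a / (a ^ 2 - b ^ 2 * r ^ 2), M.div_mem ha hNM,
        -b / (a ^ 2 - b ^ 2 * r ^ 2), M.div_mem (M.neg_mem hb) hNM, ?_⟩
      have h3 : a + b * r ≠ 0 := by
        intro h0
        apply hN
        linear_combination (a - b * r) * h0
      field_simp
      ring
  | mul x y _ _ hx hy =>
    obtain ⟨a, ha, b, hb, rfl⟩ := hx
    obtain ⟨c, hc, d, hd, rfl⟩ := hy
    refine ⟨a * c + b * d * r ^ 2, M.add_mem (M.mul_mem ha hc)
      (M.mul_mem (M.mul_mem hb hd) hr2), a * d + b * c,
      M.add_mem (M.mul_mem ha hd) (M.mul_mem hb hc), by ring⟩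

theorem cube_mem (S : Set I) {M : Subfield ℝ} (hM : M ∈ Fam α S) (i : I) : α i ^ 3 ∈ M := by
  have := hM.1 i
  unfold beta at this
  split_ifs at this with h
  · exact pow_mem this 3
  · exact this

/-- maximal elements are closed under square roots of positive elements -/
theorem sqrt_mem (S : Set I) {M : Subfield ℝ} (hM : Maximal (· ∈ Fam α S) M) (a : ℝ) (ha : a ∈ M)
    (hpos : 0 ≤ a) : Real.sqrt a ∈ M := by
  by_contra hr
  set r := Real.sqrt a with hrdef
  have hr2 : r ^ 2 = a := Real.sq_sqrt hpos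
  have hr0 : 0 < r := by
    rcases (Real.sqrt_nonneg a).lt_or_eq with h | h
    · exact h
    · exfalso; apply hr; rw [hrdef, ← h]; exact M.zero_mem
  have hle : M ≤ Subfield.closure (insert r (M : Set ℝ)) := fun x hx =>
    Subfield.subset_closure (Set.mem_insert_of_mem _ hx)
  have hmem : Subfield.closure (insert r (M : Set ℝ)) ∈ Fam α S := by
    refine ⟨fun i => hle (hM.prop.1 i), ?_⟩
    intro i hi hz
    obtain ⟨x, hx, y, hy, hxy⟩ := mem_quad M r hr (by rw [hr2]; exact ha) _ hz
    by_cases hy0 : y = 0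
    · apply hM.prop.2 i hi
      rw [hxy, hy0, zero_mul, add_zero]
      exact hx
    · have hc := cube_mem α S hM.prop i
      have hpos' : 0 < 3 * x ^ 2 * y ^ 2 + y ^ 4 * r ^ 2 := by positivity
      have hcoef : y * (3 * x ^ 2 * y + y ^ 3 * r ^ 2) ≠ 0 := by
        have : y * (3 * x ^ 2 * y + y ^ 3 * r ^ 2) = 3 * x ^ 2 * y ^ 2 + y ^ 4 * r ^ 2 := by ring
        rw [this]; exact hpos'.ne'
      have hcoef' : 3 * x ^ 2 * y + y ^ 3 * r ^ 2 ≠ 0 := right_ne_zero_of_mul hcoef
      apply hr
      have hx3 : x ^ 3 + 3 * x * y ^ 2 * r ^ 2 ∈ M := by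
        refine M.add_mem (pow_mem hx 3) (M.mul_mem (M.mul_mem (M.mul_mem ?_ hx) (pow_mem hy 2)) ?_)
        · exact_mod_cast natCast_mem M 3
        · rw [hr2]; exact ha
      have hden : 3 * x ^ 2 * y + y ^ 3 * r ^ 2 ∈ M := by
        refine M.add_mem (M.mul_mem (M.mul_mem ?_ (pow_mem hx 2)) hy) (M.mul_mem (pow_mem hy 3) ?_)
        · exact_mod_cast natCast_mem M 3
        · rw [hr2]; exact ha
      have : r = (α i ^ 3 - (x ^ 3 + 3 * x * y ^ 2 * r ^ 2)) /
          (3 * x ^ 2 * y + y ^ 3 * r ^ 2) := by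
        rw [eq_div_iff hcoef', hxy]
        ring
      rw [this]
      exact M.div_mem (M.sub_mem hc hx3) hden
  have := hM.2 hmem hle
  exact hr (this (Subfield.subset_closure (Set.mem_insert _ _)))

theorem arch_aux (K : Type) [Field K] [LinearOrder K] [IsStrictOrderedRing K] (x : K) (n : ℕ)
    (y : K) (h : (n : K) - x = y * y) : x < ((n + 1 : ℕ) : K) := by
  have h2 : 0 ≤ y * y := mul_self_nonneg y
  have h5 : ((n + 1 : ℕ) : K) - x = y * y + 1 := by
    push_cast
    linear_combination h
  have h4 : 0 < y * y + 1 := by positivity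
  rw [← h5] at h4
  exact sub_pos.1 h4

/-- such fields have only archimedean orderings -/
theorem only_arch (M : Subfield ℝ) (hM : ∀ a ∈ M, 0 ≤ a → Real.sqrt a ∈ M) :
    OnlyArchimedeanOrderings M := by
  intro o ho x
  obtain ⟨n, hn⟩ := exists_nat_gt (x : ℝ)
  have h0 : 0 ≤ (n : ℝ) - x := by linarith
  have hmem : (n : ℝ) - x ∈ M := M.sub_mem (natCast_mem M n) x.2
  let y : M := ⟨Real.sqrt ((n : ℝ) - x), hM _ hmem h0⟩
  have hy : (n : M) - x = y * y := by
    apply Subtype.ext
    show ((n : M) : ℝ) - x = Real.sqrt ((n : ℝ) - x) * Real.sqrt ((n : ℝ) - x)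
    rw [Real.mul_self_sqrt h0]
    rfl
  exact ⟨n + 1, @arch_aux M _ o ho x n y hy⟩

/-- the set of cubes of `K` -/
def cubes (K : Type) [Field K] : Set K := {x | ∃ y, y ^ 3 = x}

theorem cubes_definable (K : Type) [Field K] [Ring.CompatibleRing K] :
    (∅ : Set K).Definable₁ Language.ring (cubes K) := by
  have : DP Language.ring (∅ : Set K) (fun v : Fin 1 → K => ∃ y, y ^ 3 = v 0) :=
    DP.ex (DP.eq ((TF.var none).pow 3) (TF.var (some 0)))
  exact this.definable

theorem card_borel : #{B : Set ℝ // MeasurableSet B} ≤ 𝔠 := by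
  have h := @MeasurableSpace.cardinal_measurableSet_le_continuum ℝ
    (⋃ (a : ℚ) (b : ℚ) (_ : a < b), {Set.Ioo (a : ℝ) (b : ℝ)}) (by
      refine (Cardinal.le_aleph0_iff_set_countable.2 ?_).trans aleph0_le_continuum
      refine Set.countable_iUnion fun a => Set.countable_iUnion fun b => Set.countable_iUnion
        fun _ => Set.countable_singleton _)
  have e := Real.borel_eq_generateFrom_Ioo_rat
  have e2 : (inferInstance : MeasurableSpace ℝ) = borel ℝ := BorelSpace.measurable_eq
  rw [← e, ← e2] at h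
  exact h

theorem card_basis {I : Type} (x : I → ℝ) (hx : IsTranscendenceBasis ℚ x) : 𝔠 ≤ #I := by
  haveI : Algebra.IsAlgebraic (Algebra.adjoin ℚ (Set.range x)) ℝ := hx.isAlgebraic
  have h1 := Algebra.IsAlgebraic.cardinalMk_le_max (Algebra.adjoin ℚ (Set.range x)) ℝ
  rw [Cardinal.mk_real] at h1
  have h2 : #(Algebra.adjoin ℚ (Set.range x)) = #(MvPolynomial I ℚ) :=
    (Cardinal.mk_congr hx.1.aevalEquiv.toEquiv).symm
  have h3 : #(MvPolynomial I ℚ) ≤ max (max #ℚ #I) ℵ₀ := MvPolynomial.cardinalMk_le_max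
  have h4 : 𝔠 ≤ max (max #ℚ #I) ℵ₀ := by
    rw [h2] at h1
    exact h1.trans (max_le h3 (le_max_right _ _))
  rw [Cardinal.mk_denumerable] at h4
  rcases le_max_iff.1 h4 with h | h
  · rcases le_max_iff.1 h with h | h
    · exact absurd h (not_le.2 aleph0_lt_continuum)
    · exact h
  · exact absurd h (not_le.2 aleph0_lt_continuum)

/-- There is a subfield `K` of `ℝ` with only archimedean orderings whose `∅`-definable set of cubes
is not Borel. -/
theorem result : ∃ K : Subfield ℝ, OnlyArchimedeanOrderings K ∧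
    ∃ D : Set K, (∀ [Ring.CompatibleRing K], (∅ : Set K).Definable₁ Language.ring D) ∧
      ¬ @MeasurableSet K (borel K) D := by
  obtain ⟨I, α, hα⟩ := exists_isTranscendenceBasis' ℚ ℝ
  choose M hM using exists_max α hα.1
  by_contra hcon
  push Not at hcon
  have hmeas : ∀ S : Set I, @MeasurableSet (M S) (borel (M S)) (cubes (M S)) := fun S =>
    hcon (M S) (only_arch _ (sqrt_mem α S (hM S))) (cubes (M S)) (fun {_} => cubes_definable _)
  have hB : ∀ S : Set I, ∃ B : Set ℝ, MeasurableSet B ∧ Subtype.val ⁻¹' B = cubes (M S) := by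
    intro S
    have h := hmeas S
    have e : borel (M S) = MeasurableSpace.comap Subtype.val (borel ℝ) := borel_comap
    rw [e] at h
    obtain ⟨B, hB1, hB2⟩ := h
    refine ⟨B, ?_, hB2⟩
    rwa [← BorelSpace.measurable_eq (α := ℝ)] at hB1
  choose B hBm hBeq using hB
  have hinj : Function.Injective (fun S : Set I => (⟨B S, hBm S⟩ : {B : Set ℝ // MeasurableSet B})) := by
    have key : ∀ S T : Set I, B S = B T → S ⊆ T := by
      intro S T hST i hi
      by_contra hiT
      have h1 : α i ^ 3 ∈ B S := by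
        have hmem : α i ∈ M S := by
          have := (hM S).prop.1 i
          unfold beta at this
          rwa [if_pos hi] at this
        have : (⟨α i ^ 3, pow_mem hmem 3⟩ : M S) ∈ cubes (M S) :=
          ⟨⟨α i, hmem⟩, rfl⟩
        rw [← hBeq S] at this
        exact this
      rw [hST] at h1
      have h2 : (⟨α i ^ 3, cube_mem α T (hM T).prop i⟩ : M T) ∈ cubes (M T) := by
        rw [← hBeq T]
        exact h1
      obtain ⟨y, hy⟩ := h2
      have hy' : (y : ℝ) ^ 3 = α i ^ 3 := congrArg Subtype.val hy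
      have hy'' : (y : ℝ) = α i := (Odd.strictMono_pow (by decide : Odd 3)).injective hy'
      exact (hM T).prop.2 i hiT (hy'' ▸ y.2)
    intro S T hST
    have hST' : B S = B T := congrArg Subtype.val hST
    exact Set.Subset.antisymm (key S T hST') (key T S hST'.symm)
  have hcard := (Cardinal.mk_le_of_injective hinj).trans card_borel
  have h1 := Cardinal.mk_set (α := I)
  rw [h1] at hcard
  have h2 : 𝔠 < 2 ^ #I := lt_of_le_of_lt (card_basis α hα) (Cardinal.cantor _)
  exact absurd hcard (not_le.2 h2)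

end Pool.Agent.Results.MP_37207a_lc.NonBorelCubes
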